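import Pool.Agent.Helper69.MF.StA

set_option autoImplicit false

namespace Pool.Agent.Helper33.MF

open Set Topology Filter MeasureTheory
open Pool.Agent.Helper31.CY Pool.Agent.Helper69.MF

/-! coordinates -/

private theorem on_cols {τ n k : E3} (h : ON τ n k) (i j : Fin 3) :
    τ i * τ j + n i * n j + k i * k j = if i = j then 1 else 0 := by
  obtain ⟨h1, h2, h3, h4, h5, h6⟩ := h
  unfold dt at h1 h2 h3 h4 h5 h6
  let M : Matrix (Fin 3) (Fin 3) ℝ := !![τ 0, τ 1, τ 2; n 0, n 1, n 2; k 0, k 1, k 2]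
  have hM : M * M.transpose = 1 := by
    ext i j
    fin_cases i <;> fin_cases j <;>
      simp [M, Matrix.mul_apply, Fin.sum_univ_three] <;> linarith
  have hM' : M.transpose * M = 1 := mul_eq_one_comm.1 hM
  have hij := congrFun (congrFun hM' i) j
  rw [Matrix.mul_apply, Fin.sum_univ_three, Matrix.one_apply] at hij
  fin_cases i <;> fin_cases j <;> simpa [M] using hij

private theorem dt_add_left (x y z : E3) : dt (x + y) z = dt x z + dt y z := by
  simp [dt]; ring

private theorem dt_sub_left (x y z : E3) : dt (x - y) z = dt x z - dt y z := by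
  simp [dt]; ring

private theorem dt_smul_left (a : ℝ) (y z : E3) : dt (a • y) z = a * dt y z := by
  simp [dt]; ring

private theorem dt_comm (x y : E3) : dt x y = dt y x := by
  simp [dt]; ring

private theorem expand {τ n k : E3} (h : ON τ n k) (z : E3) :
    z = dt z τ • τ + dt z n • n + dt z k • k := by
  have key : ∀ i, z i = dt z τ * τ i + dt z n * n i + dt z k * k i := by
    intro i
    have h0 := on_cols h i 0
    have h1 := on_cols h i 1
    have h2 := on_cols h i 2
    unfold dt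
    have e : (z 0 * τ 0 + z 1 * τ 1 + z 2 * τ 2) * τ i + (z 0 * n 0 + z 1 * n 1 + z 2 * n 2) * n i +
        (z 0 * k 0 + z 1 * k 1 + z 2 * k 2) * k i =
        z 0 * (τ i * τ 0 + n i * n 0 + k i * k 0) + z 1 * (τ i * τ 1 + n i * n 1 + k i * k 1) +
        z 2 * (τ i * τ 2 + n i * n 2 + k i * k 2) := by ring
    rw [e, h0, h1, h2]
    fin_cases i <;> simp
  ext i
  rw [key i]
  simp

private theorem coords {p τ n k : E3} (h : ON τ n k) (a v w : ℝ) :
    dt (fr p τ n k a v w - p) τ = a ∧ dt (fr p τ n k a v w - p) n = v ∧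
      dt (fr p τ n k a v w - p) k = w := by
  obtain ⟨h1, h2, h3, h4, h5, h6⟩ := h
  have e : fr p τ n k a v w - p = a • τ + v • n + w • k := by
    unfold fr; abel
  rw [e]
  simp only [dt_add_left, dt_smul_left]
  rw [dt_comm n τ, dt_comm k τ, dt_comm k n, h1, h2, h3, h4, h5, h6]
  refine ⟨by ring, by ring, by ring⟩

private theorem fr_coords {p τ n k : E3} (h : ON τ n k) (x : E3) :
    x = fr p τ n k (dt (x - p) τ) (dt (x - p) n) (dt (x - p) k) := by
  have := expand h (x - p)
  unfold fr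
  rw [add_assoc, add_assoc, ← add_assoc (dt (x - p) τ • τ), ← this]
  abel

/-! the cutoff -/

private noncomputable def chi (c ρ w : ℝ) : ℝ := max 0 (min 1 ((2 * c + 1 - |w| / ρ) / c))

private theorem chi_nonneg (c ρ w : ℝ) : 0 ≤ chi c ρ w := le_max_left _ _

private theorem chi_le_one (c ρ w : ℝ) : chi c ρ w ≤ 1 :=
  max_le zero_le_one (min_le_left _ _)

private theorem chi_le {c ρ w : ℝ} (hc : 0 < c) (hρ : 0 < ρ) (hw : |w| ≤ (2 * c + 1) * ρ) :
    chi c ρ w ≤ (2 * c + 1 - |w| / ρ) / c := by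
  refine max_le ?_ (min_le_right _ _)
  refine div_nonneg ?_ hc.le
  rw [sub_nonneg, div_le_iff₀ hρ]
  exact hw

private theorem chi_zero {c ρ w : ℝ} (hc : 0 < c) (hρ : 0 < ρ) (hw : (2 * c + 1) * ρ ≤ |w|) :
    chi c ρ w = 0 := by
  refine max_eq_left ((min_le_right _ _).trans ?_)
  refine div_nonpos_of_nonpos_of_nonneg ?_ hc.le
  rw [sub_nonpos, le_div_iff₀ hρ]
  exact hw

private theorem chi_one {c ρ w : ℝ} (hc : 0 < c) (hρ : 0 < ρ) (hw : |w| ≤ (c + 1) * ρ) :
    chi c ρ w = 1 := by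
  have : 1 ≤ (2 * c + 1 - |w| / ρ) / c := by
    rw [le_div_iff₀ hc]
    have : |w| / ρ ≤ c + 1 := by
      rw [div_le_iff₀ hρ]; exact hw
    linarith
  unfold chi
  rw [min_eq_left this, max_eq_right zero_le_one]

private theorem chi_lip {c ρ : ℝ} (hc : 0 < c) (hρ : 0 < ρ) (w w' : ℝ) :
    |chi c ρ w - chi c ρ w'| ≤ |w - w'| / (c * ρ) := by
  have h1 : |chi c ρ w - chi c ρ w'| ≤
      |min 1 ((2 * c + 1 - |w| / ρ) / c) - min 1 ((2 * c + 1 - |w'| / ρ) / c)| := by
    unfold chi
    have := abs_max_sub_max_le_max (0 : ℝ) (min 1 ((2 * c + 1 - |w| / ρ) / c)) 0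
      (min 1 ((2 * c + 1 - |w'| / ρ) / c))
    rw [sub_self, abs_zero] at this
    exact this.trans (max_le (abs_nonneg _) le_rfl)
  have h2 : |min 1 ((2 * c + 1 - |w| / ρ) / c) - min 1 ((2 * c + 1 - |w'| / ρ) / c)| ≤
      |(2 * c + 1 - |w| / ρ) / c - (2 * c + 1 - |w'| / ρ) / c| := by
    have := abs_min_sub_min_le_max 1 ((2 * c + 1 - |w| / ρ) / c) 1 ((2 * c + 1 - |w'| / ρ) / c)
    rw [sub_self, abs_zero] at this
    exact this.trans (max_le (abs_nonneg _) le_rfl)
  have h3 : (2 * c + 1 - |w| / ρ) / c - (2 * c + 1 - |w'| / ρ) / c = (|w'| - |w|) / (c * ρ) := by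
    field_simp
    ring
  rw [h3] at h2
  refine h1.trans (h2.trans ?_)
  rw [abs_div, abs_of_pos (mul_pos hc hρ)]
  refine div_le_div_of_nonneg_right ?_ (mul_pos hc hρ).le
  rw [abs_sub_comm]
  exact abs_abs_sub_abs_le_abs_sub _ _


/-! the push in coordinates -/

private noncomputable def cf (c ρ s a v w : ℝ) : ℝ :=
  s * (c / 2) * max 0 (ρ - |a| - |v|) * chi c ρ w

private theorem push_eq (p τ n k : E3) (c ρ s : ℝ) (x : E3) :
    push p τ n k c ρ s x =
      x - (cf c ρ s (dt (x - p) τ) (dt (x - p) n) (dt (x - p) k)) • k := rfl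

private theorem push_coords {p τ n k : E3} (h : ON τ n k) (c ρ s : ℝ) (x : E3) :
    dt (push p τ n k c ρ s x - p) τ = dt (x - p) τ ∧
    dt (push p τ n k c ρ s x - p) n = dt (x - p) n ∧
    dt (push p τ n k c ρ s x - p) k = dt (x - p) k -
      cf c ρ s (dt (x - p) τ) (dt (x - p) n) (dt (x - p) k) := by
  obtain ⟨h1, h2, h3, h4, h5, h6⟩ := h
  rw [push_eq]
  have e : ∀ t : ℝ, x - t • k - p = (x - p) - t • k := fun t => by abel
  rw [e]
  simp only [dt_sub_left, dt_smul_left]
  rw [dt_comm k τ, dt_comm k n, h3, h5, h6]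
  refine ⟨by ring, by ring, by ring⟩

private theorem cf_nonneg {c ρ s : ℝ} (hc : 0 < c) (hs : 0 ≤ s) (a v w : ℝ) :
    0 ≤ cf c ρ s a v w :=
  mul_nonneg (mul_nonneg (mul_nonneg hs (by linarith)) (le_max_left _ _)) (chi_nonneg _ _ _)

private theorem zeta_le {ρ : ℝ} (hρ : 0 < ρ) (a v : ℝ) : max 0 (ρ - |a| - |v|) ≤ ρ :=
  max_le hρ.le (by linarith [abs_nonneg a, abs_nonneg v])

private theorem cf_le1 {c ρ s : ℝ} (hc : 0 < c) (hρ : 0 < ρ) (hs : 0 ≤ s) (hs1 : s ≤ 1)
    (a v w : ℝ) : cf c ρ s a v w ≤ c / 2 * ρ := by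
  have h1 := zeta_le hρ a v
  have h0 : 0 ≤ max 0 (ρ - |a| - |v|) := le_max_left _ _
  have h2 := chi_le_one c ρ w
  have h3 := chi_nonneg c ρ w
  unfold cf
  have h4 : s * (c / 2) * max 0 (ρ - |a| - |v|) ≤ 1 * (c / 2) * ρ := by
    refine mul_le_mul ?_ h1 h0 (by positivity)
    exact mul_le_mul_of_nonneg_right hs1 (by positivity)
  calc s * (c / 2) * max 0 (ρ - |a| - |v|) * chi c ρ w ≤ (1 * (c / 2) * ρ) * 1 :=
        mul_le_mul h4 h2 h3 (by positivity)
    _ = c / 2 * ρ := by ring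

private theorem cf_le2 {c ρ s : ℝ} (hc : 0 < c) (hρ : 0 < ρ) (hs : 0 ≤ s) (hs1 : s ≤ 1)
    (a v : ℝ) {w : ℝ} (hw : |w| ≤ (2 * c + 1) * ρ) :
    cf c ρ s a v w ≤ ((2 * c + 1) * ρ - |w|) / 2 := by
  have h1 := zeta_le hρ a v
  have h0 : 0 ≤ max 0 (ρ - |a| - |v|) := le_max_left _ _
  have h2 := chi_le hc hρ hw
  have h3 := chi_nonneg c ρ w
  unfold cf
  have h4 : s * (c / 2) * max 0 (ρ - |a| - |v|) ≤ 1 * (c / 2) * ρ := by
    refine mul_le_mul ?_ h1 h0 (by positivity)
    exact mul_le_mul_of_nonneg_right hs1 (by positivity)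
  calc s * (c / 2) * max 0 (ρ - |a| - |v|) * chi c ρ w
      ≤ (1 * (c / 2) * ρ) * ((2 * c + 1 - |w| / ρ) / c) := mul_le_mul h4 h2 h3 (by positivity)
    _ = ((2 * c + 1) * ρ - |w|) / 2 := by field_simp

private theorem stay {c ρ s : ℝ} (hc : 0 < c) (hρ : 0 < ρ) (hs : 0 ≤ s) (hs1 : s ≤ 1)
    (a v : ℝ) {w : ℝ} (hw : |w| ≤ (2 * c + 1) * ρ) :
    -(((2 * c + 1) * ρ + |w|) / 2) ≤ w - cf c ρ s a v w ∨ 0 ≤ w := by
  rcases le_or_gt 0 w with h | h
  · exact Or.inr h
  · left
    have := cf_le2 hc hρ hs hs1 a v hw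
    rw [abs_of_neg h] at this ⊢
    linarith

private theorem zero_out {c ρ s : ℝ} (hc : 0 < c) (hρ : 0 < ρ) (a v w : ℝ)
    (h : ρ ≤ |a| + |v| ∨ (2 * c + 1) * ρ ≤ |w|) : cf c ρ s a v w = 0 := by
  unfold cf
  rcases h with h | h
  · rw [max_eq_left (by linarith : ρ - |a| - |v| ≤ 0)]; ring
  · rw [chi_zero hc hρ h]; ring

private theorem inj_m {c ρ : ℝ} (hc : 0 < c) (hρ : 0 < ρ) (a v w w' : ℝ)
    (h : w - cf c ρ 1 a v w = w' - cf c ρ 1 a v w') : w = w' := by
  have h1 := zeta_le hρ a v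
  have h0 : 0 ≤ max 0 (ρ - |a| - |v|) := le_max_left _ _
  have h2 : w - w' = (c / 2) * max 0 (ρ - |a| - |v|) * (chi c ρ w - chi c ρ w') := by
    unfold cf at h
    linear_combination h
  have h3 := chi_lip hc hρ w w'
  have h4 : |w - w'| ≤ |w - w'| / 2 := by
    calc |w - w'| = (c / 2) * max 0 (ρ - |a| - |v|) * |chi c ρ w - chi c ρ w'| := by
          conv_lhs => rw [h2]
          rw [abs_mul, abs_of_nonneg (mul_nonneg (by linarith) h0)]
      _ ≤ ((c / 2) * ρ) * (|w - w'| / (c * ρ)) := by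
          refine mul_le_mul ?_ h3 (abs_nonneg _) (by positivity)
          exact mul_le_mul_of_nonneg_left h1 (by linarith)
      _ = |w - w'| / 2 := by field_simp
  have h5 : |w - w'| = 0 := le_antisymm (by linarith) (abs_nonneg _)
  exact sub_eq_zero.1 (abs_eq_zero.1 h5)

theorem hPSH : StPSH := by
  intro p τ n k c ρ hON hc hρ
  refine ⟨?_, ?_, ?_, fun x => fr_coords hON x, ?_⟩
  · unfold push dt
    fun_prop (disch := positivity)
  · intro s x h
    rw [push_eq, zero_out hc hρ _ _ _ h]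
    simp
  · intro s x hs hs1 h1 h2
    obtain ⟨e1, e2, e3⟩ := push_coords (p := p) hON c ρ s x
    refine ⟨e1, e2, ?_⟩
    rw [e3]
    have hst := stay hc hρ hs hs1 (dt (x - p) τ) (dt (x - p) n) h2.le
    have hn := cf_nonneg (ρ := ρ) hc hs (dt (x - p) τ) (dt (x - p) n) (dt (x - p) k)
    have hl := cf_le1 hc hρ hs hs1 (dt (x - p) τ) (dt (x - p) n) (dt (x - p) k)
    have hlt := abs_lt.1 h2
    have hcρ : 0 < c * ρ := mul_pos hc hρ
    rw [abs_lt]
    constructor
    · rcases hst with h | h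
      · linarith
      · nlinarith
    · linarith
  · intro ε g S' hε hε1 hClo hS'
    obtain ⟨hg0, hgl⟩ := hClo
    have hcρ : 0 < c * ρ := mul_pos hc hρ
    -- bounds for the graph
    have hgb : ∀ a v : ℝ, |a| + |v| < ρ → abs (g a |v| - c * |v|) ≤ |a| + |v| := by
      intro a v hav
      have := hgl a |v| 0 0 (by linarith [abs_nonneg v]) (by rw [abs_abs]; linarith [abs_nonneg a])
        (by rw [abs_zero]; exact hρ.le) (by rw [abs_zero]; exact hρ.le)
      rw [hg0, mul_zero, sub_zero, sub_zero, sub_zero, sub_zero, abs_abs] at this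
      refine this.trans ?_
      have h0 : 0 ≤ |a| + |v| := add_nonneg (abs_nonneg _) (abs_nonneg _)
      nlinarith
    have hgabs : ∀ a v : ℝ, |a| + |v| < ρ → abs (g a |v|) < (c + 1) * ρ := by
      intro a v hav
      have h1 := abs_le.1 (hgb a v hav)
      have h2 := abs_nonneg a
      have h3 := abs_nonneg v
      have h4 : c * |v| ≤ c * ρ := mul_le_mul_of_nonneg_left (by linarith) hc.le
      have h5 : 0 ≤ c * |v| := mul_nonneg hc.le h3
      rw [abs_lt]
      constructor <;> nlinarith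
    have hWabs : ∀ a v : ℝ, |a| + |v| < ρ →
        abs (g a |v| + c / 2 * (ρ - |a| - |v|)) ≤ (c + 1) * ρ := by
      intro a v hav
      have h1 := abs_le.1 (hgb a v hav)
      have h2 := abs_nonneg a
      have h3 := abs_nonneg v
      have h5 : 0 ≤ c * |v| := mul_nonneg hc.le h3
      have h6 : 0 ≤ c * |a| := mul_nonneg hc.le h2
      have h7 : 0 ≤ c * (ρ - |a| - |v|) := mul_nonneg hc.le (by linarith)
      rw [abs_le]
      constructor <;> nlinarith
    have hG1 : G1 p τ n k ρ g = S' ∩ {x | |dt (x - p) τ| + |dt (x - p) n| < ρ ∧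
        |dt (x - p) k| < (2 * c + 1) * ρ} := by
      ext x
      constructor
      · rintro ⟨a, v, hav, rfl⟩
        obtain ⟨e1, e2, e3⟩ := coords (p := p) hON a v (g a |v|)
        have hlt := hgabs a v hav
        refine ⟨(hS' a v _ hav (by nlinarith)).2 rfl, ?_, ?_⟩
        · show |dt _ τ| + |dt _ n| < ρ
          rw [e1, e2]; exact hav
        · rw [e3]; nlinarith
      · rintro ⟨hx, h1, h2⟩
        refine ⟨dt (x - p) τ, dt (x - p) n, h1, ?_⟩
        have hx' := hx
        rw [fr_coords (p := p) hON x] at hx'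
        have := (hS' _ _ _ h1 h2.le).1 hx'
        rw [← this]
        exact fr_coords hON x
    refine ⟨?_, hG1⟩
    ext x
    obtain ⟨e1, e2, e3⟩ := push_coords (p := p) hON c ρ 1 x
    have hG2 : x ∈ G2 p τ n k c ρ g ↔ |dt (x - p) τ| + |dt (x - p) n| < ρ ∧
        dt (x - p) k = g (dt (x - p) τ) |dt (x - p) n| +
          c / 2 * (ρ - |dt (x - p) τ| - |dt (x - p) n|) := by
      constructor
      · rintro ⟨a, v, hav, rfl⟩
        obtain ⟨f1, f2, f3⟩ := coords (p := p) hON a v (g a |v| + c / 2 * (ρ - |a| - |v|))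
        rw [f1, f2, f3]
        exact ⟨hav, rfl⟩
      · rintro ⟨h1, h2⟩
        refine ⟨dt (x - p) τ, dt (x - p) n, h1, ?_⟩
        rw [← h2]
        exact fr_coords hON x
    by_cases hR : |dt (x - p) τ| + |dt (x - p) n| < ρ ∧ |dt (x - p) k| ≤ (2 * c + 1) * ρ
    · obtain ⟨hav, hw⟩ := hR
      have hpx : push p τ n k c ρ 1 x ∈ S' ↔
          dt (x - p) k - cf c ρ 1 (dt (x - p) τ) (dt (x - p) n) (dt (x - p) k) =
            g (dt (x - p) τ) |dt (x - p) n| := by
        have hfr := fr_coords (p := p) hON (push p τ n k c ρ 1 x)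
        rw [e1, e2, e3] at hfr
        rw [hfr]
        refine hS' _ _ _ hav ?_
        have hst := stay hc hρ zero_le_one le_rfl (dt (x - p) τ) (dt (x - p) n) hw
        have hn := cf_nonneg (ρ := ρ) hc zero_le_one (dt (x - p) τ) (dt (x - p) n) (dt (x - p) k)
        have hl := cf_le1 hc hρ zero_le_one le_rfl (dt (x - p) τ) (dt (x - p) n) (dt (x - p) k)
        have hle := abs_le.1 hw
        rw [abs_le]
        constructor
        · rcases hst with h | h
          · linarith
          · nlinarith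
        · linarith
      have hW : dt (x - p) k - cf c ρ 1 (dt (x - p) τ) (dt (x - p) n) (dt (x - p) k) =
            g (dt (x - p) τ) |dt (x - p) n| ↔
          dt (x - p) k = g (dt (x - p) τ) |dt (x - p) n| +
            c / 2 * (ρ - |dt (x - p) τ| - |dt (x - p) n|) := by
        have hval : cf c ρ 1 (dt (x - p) τ) (dt (x - p) n)
            (g (dt (x - p) τ) |dt (x - p) n| +
              c / 2 * (ρ - |dt (x - p) τ| - |dt (x - p) n|)) =
            c / 2 * (ρ - |dt (x - p) τ| - |dt (x - p) n|) := by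
          unfold cf
          rw [chi_one hc hρ (hWabs _ _ hav), max_eq_right (by linarith)]
          ring
        constructor
        · intro h
          refine inj_m hc hρ (dt (x - p) τ) (dt (x - p) n) _ _ ?_
          rw [hval, h]; ring
        · intro h
          rw [h, hval]; ring
      show push p τ n k c ρ 1 x ∈ S' ↔ _
      rw [hpx, hW]
      constructor
      · intro h
        exact Or.inr (hG2.2 ⟨hav, h⟩)
      · rintro (h | h)
        · exfalso
          apply h.2
          refine ⟨dt (x - p) τ, dt (x - p) n, hav, ?_⟩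
          have hx' := h.1
          rw [fr_coords (p := p) hON x] at hx'
          have := (hS' _ _ _ hav hw).1 hx'
          rw [← this]
          exact fr_coords hON x
        · exact (hG2.1 h).2
    · have hout : ρ ≤ |dt (x - p) τ| + |dt (x - p) n| ∨ (2 * c + 1) * ρ ≤ |dt (x - p) k| := by
        by_contra hcon
        push Not at hcon
        exact hR ⟨hcon.1, hcon.2.le⟩
      show push p τ n k c ρ 1 x ∈ S' ↔ _
      rw [push_eq, zero_out hc hρ _ _ _ hout, zero_smul, sub_zero]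
      constructor
      · intro h
        refine Or.inl ⟨h, ?_⟩
        rw [hG1]
        rintro ⟨-, h1, h2⟩
        exact hR ⟨h1, h2.le⟩
      · rintro (h | h)
        · exact h.1
        · exfalso
          obtain ⟨h1, h2⟩ := hG2.1 h
          apply hR
          refine ⟨h1, ?_⟩
          rw [h2]
          refine (hWabs _ _ h1).trans ?_
          nlinarith

end Pool.Agent.Helper33.MF
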